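import Mathlib

namespace Pool.Agent.Results.MP_71efc4_nt.Full

open Finset

variable {G : Type} [AddCommGroup G]

def Sig (A : Finset G) : Set G := {g | ∃ B ⊆ A, ∑ x ∈ B, x = g}

def SigStar (A : Finset G) : Set G := {g | ∃ B ⊆ A, B.Nonempty ∧ ∑ x ∈ B, x = g}

def C0set (G : Type) [AddCommGroup G] : Set ℕ :=
  {m | ∀ A : Finset G, 0 ∉ A → m ≤ A.card → Sig A = Set.univ}

def Cset (G : Type) [AddCommGroup G] : Set ℕ :=
  {m | ∀ A : Finset G, 0 ∉ A → m ≤ A.card → SigStar A = Set.univ}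

theorem five : ∀ A : Finset (ZMod 10), 0 ∉ A → 5 ≤ A.card →
    ∀ g, ∃ B ∈ A.powerset, B.Nonempty ∧ ∑ x ∈ B, x = g := by
  decide +kernel

theorem result : IsLeast (C0set (ZMod 10)) 5 ∧ IsLeast (Cset (ZMod 10)) 5 ∧
    ∃ A : Finset (ZMod 10), 0 ∉ A ∧ A.card = 5 - 1 ∧ SigStar A ≠ Set.univ ∧
      Sig A = Set.univ := by
  have bad : ∀ B ∈ ({2, 4, 6, 8} : Finset (ZMod 10)).powerset, ∑ x ∈ B, x ≠ 1 := by
    decide +kernel
  have low : ∀ m, (∀ A : Finset (ZMod 10), 0 ∉ A → m ≤ A.card → (1 : ZMod 10) ∈ Sig A) →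
      5 ≤ m := by
    intro m h
    by_contra hm
    obtain ⟨B, hB, hs⟩ := h {2, 4, 6, 8} (by decide) (by
      have : ({2, 4, 6, 8} : Finset (ZMod 10)).card = 4 := by decide
      omega)
    exact bad B (mem_powerset.2 hB) hs
  refine ⟨⟨fun A h0 hc => ?_, fun m hm => low m fun A h0 hc => ?_⟩,
    ⟨fun A h0 hc => ?_, fun m hm => low m fun A h0 hc => ?_⟩,
    {1, 3, 4, 8}, by decide, by decide, fun h => ?_, ?_⟩
  · refine Set.eq_univ_of_forall fun g => ?_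
    obtain ⟨B, hB, -, hs⟩ := five A h0 hc g
    exact ⟨B, mem_powerset.1 hB, hs⟩
  · rw [hm A h0 hc]; trivial
  · refine Set.eq_univ_of_forall fun g => ?_
    obtain ⟨B, hB, hn, hs⟩ := five A h0 hc g
    exact ⟨B, mem_powerset.1 hB, hn, hs⟩
  · have : (1 : ZMod 10) ∈ SigStar A := by rw [hm A h0 hc]; trivial
    obtain ⟨B, hB, -, hs⟩ := this
    exact ⟨B, hB, hs⟩
  · have : (0 : ZMod 10) ∈ SigStar ({1, 3, 4, 8} : Finset (ZMod 10)) := by rw [h]; trivial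
    obtain ⟨B, hB, hn, hs⟩ := this
    have z : ∀ B ∈ ({1, 3, 4, 8} : Finset (ZMod 10)).powerset, B.Nonempty → ∑ x ∈ B, x ≠ 0 := by
      decide +kernel
    exact z B (mem_powerset.2 hB) hn hs
  · refine Set.eq_univ_of_forall fun g => ?_
    have z : ∀ g, ∃ B ∈ ({1, 3, 4, 8} : Finset (ZMod 10)).powerset, ∑ x ∈ B, x = g := by
      decide +kernel
    obtain ⟨B, hB, hs⟩ := z g
    exact ⟨B, mem_powerset.1 hB, hs⟩

end Pool.Agent.Results.MP_71efc4_nt.Full
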